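import Pool.Agent.Q309.SFT.Main

/-!
# MP_07c8c2_lc

Every forcing notion preserves the existence of a winning strategy of player II in the strong
countable fan tightness game.
-/

set_option autoImplicit false

namespace Pool.Agent.Results.MP_07c8c2_lc.AllForcingsPreserve

open Pool.Agent.Helper669.Forcing Pool.Agent.Q309.SFT

universe u v

/-- Let `P` be any forcing notion and `X` a topological space. If for every `x : X` player II has
a winning strategy in the strong countable fan tightness game at `x`, then every condition of `P`
forces that for every `x : X` player II has a winning strategy in this game at `x`, for the
topology on `X` generated by the open sets of the ground model. -/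
theorem result (P : Type u) [Preorder P] (X : Type v) [TopologicalSpace X]
    (h : ∀ x : X, Wins x) : ∀ p : P, p ∈ fall fun x : X => FWins P x :=
  fun p x => main (h x) p

end Pool.Agent.Results.MP_07c8c2_lc.AllForcingsPreserve
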